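import Mathlib
import Pool.Agent.H637R3.UC.Assemble

set_option autoImplicit false

namespace Pool.Agent.Results.MP_75f39d_co.DenseFamilies

/-- Poonen's strengthening of the union-closed sets conjecture holds for every separating
union-closed family containing at least `9/20` of all subsets of its universe. -/
theorem result {α : Type*} [DecidableEq α] (A : Finset (Finset α))
    (huc : ∀ X ∈ A, ∀ Y ∈ A, X ∪ Y ∈ A)
    (hsep : ∀ x ∈ A.sup id, ∀ y ∈ A.sup id, x ≠ y →
      ∃ S ∈ A, (x ∈ S ∧ y ∉ S) ∨ (y ∈ S ∧ x ∉ S))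
    (hne : A ≠ (A.sup id).powerset)
    (hd : 9 * 2 ^ (A.sup id).card ≤ 20 * A.card) :
    ∃ x ∈ A.sup id, 2 * (A.filter (fun S => x ∈ S)).card > A.card :=
  Pool.Agent.H637R3.UC.dense_poonen A huc hsep hne hd

end Pool.Agent.Results.MP_75f39d_co.DenseFamilies
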