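import Mathlib
import Pool.Agent.H200R3.SmallStrict

set_option autoImplicit false

/-!
# Poonen's strengthening of the union-closed sets conjecture for families with few members

Let `A` be a union-closed family with `m` members that separates the points of its universe `U`,
`n = |U| ≥ 16`.  If `m ≤ 10 n / 3`, or if `n ≥ e ^ 16000` and `m < (123 n - 200) / 23` (about
`5.347 n`), then some element of `U` lies in strictly more than half of the members of `A`.
-/

namespace Pool.Agent.Results.MP_75f39d_co.SmallFamilies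

open Pool.Agent.H117R2

theorem result (A : Finset (Finset ℕ)) (huc : ∀ X ∈ A, ∀ Y ∈ A, X ∪ Y ∈ A)
    (hsep : ∀ x ∈ A.sup id, ∀ y ∈ A.sup id, x ≠ y → ∃ S ∈ A, ¬ (x ∈ S ↔ y ∈ S))
    (hn : 16 ≤ (A.sup id).card)
    (hm : 3 * A.card ≤ 10 * (A.sup id).card ∨
      (Real.exp 16000 ≤ ((A.sup id).card : ℝ) ∧ 23 * A.card + 200 < 123 * (A.sup id).card)) :
    ∃ x ∈ A.sup id, A.card < 2 * (A.filter (fun S => x ∈ S)).card := by
  have hcard : (types A).card = (A.sup id).card := by
    unfold types
    apply Finset.card_image_of_injOn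
    intro x hx y hy hxy
    by_contra hne
    obtain ⟨S, hS, h⟩ := hsep x hx y hy hne
    have hxy' : A.filter (fun S => x ∈ S) = A.filter (fun S => y ∈ S) := hxy
    apply h
    have h1 : S ∈ A.filter (fun S => x ∈ S) ↔ S ∈ A.filter (fun S => y ∈ S) := by rw [hxy']
    simpa [hS] using h1
  suffices h : ∃ x : ℕ, A.card < 2 * (A.filter (fun S => x ∈ S)).card by
    obtain ⟨x, hx⟩ := h
    refine ⟨x, ?_, hx⟩
    have hpos : 0 < (A.filter (fun S => x ∈ S)).card := by omega
    obtain ⟨S, hS⟩ := Finset.card_pos.mp hpos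
    rw [Finset.mem_filter] at hS
    rw [Finset.mem_sup]
    exact ⟨S, hS.1, hS.2⟩
  rw [← hcard] at hn hm
  rcases hm with hm | ⟨hn', hm⟩
  · exact Pool.Agent.H200R3.tenThirdsStrict A huc hn hm
  rcases le_total A.card (2 * (types A).card) with hsm | hbig
  · exact Pool.Agent.H200R3.smallStrict A huc (by omega) hsm
  have hbig' : 2 * ((types A).card : ℝ) ≤ A.card := by exact_mod_cast hbig
  obtain ⟨i, hi⟩ := Pool.Agent.H634R3.UC.main385 A huc (by omega) hbig (by linarith)
  refine ⟨i, ?_⟩
  have hm' : 23 * (A.card : ℝ) + 200 < 123 * ((types A).card : ℝ) := by exact_mod_cast hm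
  have h : (A.card : ℝ) < 2 * ((A.filter (fun X => i ∈ X)).card : ℝ) := by linarith
  exact_mod_cast h

end Pool.Agent.Results.MP_75f39d_co.SmallFamilies
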