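import Mathlib
import Pool.Agent.H637R3.UC.SmallFin

set_option autoImplicit false

namespace Pool.Agent.Results.MP_75f39d_co.SmallInfluences

/-- A union-closed family with no influential element has an element in more than half of its
members, unless it is the power set. -/
theorem result {X : Type*} [Fintype X] [DecidableEq X] (A : Finset (Finset X))
    (huc : ∀ S ∈ A, ∀ T ∈ A, S ∪ T ∈ A) (h0 : A.Nonempty) (hne : A ≠ Finset.univ)
    (hinf : ∀ x : X, 8 * (2 ^ Fintype.card X) ^ 3 *
      (Finset.univ.filter (fun S : Finset X => ¬ (S ∈ A ↔ symmDiff S {x} ∈ A))).card ≤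
        A.card ^ 4) :
    ∃ x : X, 2 * (A.filter (fun S => x ∈ S)).card > A.card :=
  Pool.Agent.H637R3.UC.small_fin A huc h0 hne hinf

end Pool.Agent.Results.MP_75f39d_co.SmallInfluences
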